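import Pool.Agent.H81.FX.Targets

/-!
# Board `fcx_modules`, row APP: the inequality for good generators
-/

set_option autoImplicit false

open Pool.Agent.H81.FX Finset

namespace Pool.Agent.H4.FCX

variable {ι : Type} [DecidableEq ι]

theorem app_shift {M : Type} [AddCommMonoid M] (S Ξ : Finset (FreeGroup ι)) (z : FreeGroup ι)
    (hz : ∀ s ∈ S, s * z ∈ Ξ) (F : FreeGroup ι → M) (hF : ∀ g, g ∉ S → F g = 0) :
    ∑ ξ ∈ Ξ, F (ξ * z⁻¹) = ∑ g ∈ S, F g := by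
  have h1 : ∑ g ∈ S, F g = ∑ ξ ∈ S.image (fun g => g * z), F (ξ * z⁻¹) := by
    rw [Finset.sum_image fun x _ y _ h => mul_right_cancel h]
    refine Finset.sum_congr rfl fun g _ => ?_
    rw [mul_inv_cancel_right]
  rw [h1]
  refine (Finset.sum_subset ?_ ?_).symm
  · intro ξ hξ
    rw [Finset.mem_image] at hξ
    obtain ⟨g, hg, rfl⟩ := hξ
    exact hz g hg
  · intro ξ _ hξ
    apply hF
    intro hg
    apply hξ
    rw [Finset.mem_image]
    exact ⟨ξ * z⁻¹, hg, by rw [inv_mul_cancel_right]⟩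

theorem app_min {κ : Type} (D : ℝ) (hD : 0 ≤ D) (s : Finset κ) (x : κ → ℝ)
    (hx : ∀ i ∈ s, 0 ≤ x i) : min D (∑ i ∈ s, x i) ≤ ∑ i ∈ s, min D (x i) := by
  by_cases h : ∀ i ∈ s, x i ≤ D
  · refine (min_le_right _ _).trans (le_of_eq ?_)
    exact Finset.sum_congr rfl fun i hi => (min_eq_right (h i hi)).symm
  · push Not at h
    obtain ⟨i, hi, hlt⟩ := h
    refine (min_le_left _ _).trans ?_
    have h1 : min D (x i) ≤ ∑ i ∈ s, min D (x i) :=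
      Finset.single_le_sum (f := fun i => min D (x i)) (fun j hj => le_min hD (hx j hj)) hi
    rwa [min_eq_left hlt.le] at h1

theorem app_min2 (D x y : ℝ) (hD : 0 ≤ D) (hx : 0 ≤ x) (hy : 0 ≤ y) :
    min D (x + y) ≤ min D x + min D y := by
  rcases le_total D x with h | h
  · rw [min_eq_left h]
    have := min_le_left D (x + y)
    have h2 : 0 ≤ min D y := le_min hD hy
    linarith
  · rcases le_total D y with h' | h'
    · rw [min_eq_left h']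
      have := min_le_left D (x + y)
      have h2 : 0 ≤ min D x := le_min hD hx
      linarith
    · rw [min_eq_right h, min_eq_right h']
      exact min_le_right _ _

theorem app_sum {m : ℕ} (Z : Finset (FreeGroup ι)) (HC : Finset (Fin m × FreeGroup ι))
    (hHC : HC ⊆ univ ×ˢ Z) (p : FreeGroup ι → Prop) [DecidablePred p]
    (g : Fin m → FreeGroup ι → FreeGroup ι → ℝ) (hg : ∀ i z ζ, 0 ≤ g i z ζ)
    (D : FreeGroup ι → ℝ) (hD : ∀ ζ, 0 ≤ D ζ) (ε₂ : ℝ) (Θ : Finset (FreeGroup ι))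
    (hA : ∀ i, ∑ ζ ∈ Θ, min (D ζ) (∑ z ∈ Z.filter (fun z => (i, z) ∈ HC ∧ ¬ p z), g i z ζ) ≤ ε₂)
    (hB : ∀ i, ∑ ζ ∈ Θ, min (D ζ) (∑ z ∈ Z.filter (fun z => (i, z) ∈ HC ∧ p z), g i z ζ) ≤ ε₂) :
    ∑ ζ ∈ Θ, min (D ζ) (∑ η ∈ HC, g η.1 η.2 ζ) ≤ 2 * m * ε₂ := by
  have h1 : ∀ ζ, ∑ η ∈ HC, g η.1 η.2 ζ =
      ∑ i, (∑ z ∈ Z.filter (fun z => (i, z) ∈ HC ∧ ¬ p z), g i z ζ +
        ∑ z ∈ Z.filter (fun z => (i, z) ∈ HC ∧ p z), g i z ζ) := by
    intro ζ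
    have e1 : ∑ η ∈ HC, g η.1 η.2 ζ =
        ∑ η ∈ univ ×ˢ Z, if η ∈ HC then g η.1 η.2 ζ else 0 := by
      rw [Finset.sum_ite_mem, Finset.inter_eq_right.2 hHC]
    rw [e1, Finset.sum_product]
    refine Finset.sum_congr rfl fun i _ => ?_
    rw [← Finset.sum_filter, ← Finset.filter_filter, ← Finset.filter_filter, add_comm,
      Finset.sum_filter_add_sum_filter_not]
  have h2 : ∀ ζ ∈ Θ, min (D ζ) (∑ η ∈ HC, g η.1 η.2 ζ) ≤
      ∑ i, (min (D ζ) (∑ z ∈ Z.filter (fun z => (i, z) ∈ HC ∧ ¬ p z), g i z ζ) +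
        min (D ζ) (∑ z ∈ Z.filter (fun z => (i, z) ∈ HC ∧ p z), g i z ζ)) := by
    intro ζ _
    rw [h1]
    refine (app_min (D ζ) (hD ζ) univ _ fun i _ => ?_).trans (Finset.sum_le_sum fun i _ => ?_)
    · exact add_nonneg (Finset.sum_nonneg fun z _ => hg i z ζ)
        (Finset.sum_nonneg fun z _ => hg i z ζ)
    · exact app_min2 _ _ _ (hD ζ) (Finset.sum_nonneg fun z _ => hg i z ζ)
        (Finset.sum_nonneg fun z _ => hg i z ζ)
  refine (Finset.sum_le_sum h2).trans ?_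
  rw [Finset.sum_comm]
  have h3 : ∀ i ∈ (univ : Finset (Fin m)), ∑ ζ ∈ Θ,
      (min (D ζ) (∑ z ∈ Z.filter (fun z => (i, z) ∈ HC ∧ ¬ p z), g i z ζ) +
        min (D ζ) (∑ z ∈ Z.filter (fun z => (i, z) ∈ HC ∧ p z), g i z ζ)) ≤ 2 * ε₂ := by
    intro i _
    rw [Finset.sum_add_distrib]
    have := hA i
    have := hB i
    linarith
  refine (Finset.sum_le_sum h3).trans ?_
  rw [Finset.sum_const, Finset.card_univ, Fintype.card_fin, nsmul_eq_mul]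
  apply le_of_eq
  ring

theorem cl_nonneg {m : ℕ} (S : Finset (FreeGroup ι)) (b : Fin m → FreeGroup ι → ℂ) (ε : ℝ)
    (ξ : FreeGroup ι) : 0 ≤ Cl S b ε ξ := by
  classical
  unfold Cl
  refine Finset.sum_nonneg fun i _ => Finset.sum_nonneg fun g _ => ?_
  split_ifs
  · exact norm_nonneg _
  · exact le_refl _

theorem app_hc {m : ℕ} (S : Finset (FreeGroup ι)) (b : Fin m → FreeGroup ι → ℂ) (ε τ ε₂ : ℝ)
    (k : ι) (hGt : Good2 S b ε τ ε₂ (k, true)) (hGf : Good2 S b ε τ ε₂ (k, false))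
    (hel : el (k, false) = (el (k, true))⁻¹)
    (c : Fin m → FreeGroup ι → ℂ) (Z : Finset (FreeGroup ι)) (hc : ∑ i, ∑ z ∈ Z, ‖c i z‖ ≤ 10)
    (HC : Finset (Fin m × FreeGroup ι)) (hHC : HC ⊆ univ ×ˢ Z)
    (h1 : ∀ i z, (i, z) ∈ HC → ¬ Ends z (k, true) →
      Up z (k, false) ∧ z * el (k, false) ∈ Tree S (fun h => ‖b i h‖) τ)
    (h2 : ∀ i z, (i, z) ∈ HC → Ends z (k, true) →
      Up (z * el (k, false)) (k, true) ∧
        z * el (k, false) * el (k, true) ∈ Tree S (fun h => ‖b i h‖) τ)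
    (Θ : Finset (FreeGroup ι)) :
    ∑ ζ ∈ Θ, min (10 * Cl S b ε ζ) (∑ η ∈ HC, ‖c η.1 η.2‖ * ‖b η.1 (ζ * η.2⁻¹)‖) ≤ 2 * m * ε₂ ∧
    ∑ ζ ∈ Θ, min (10 * Cl S b ε ζ)
      (∑ η ∈ HC, ‖c η.1 η.2‖ * ‖b η.1 (ζ * (el (k, true) * η.2⁻¹))‖) ≤ 2 * m * ε₂ := by
  classical
  have hD : ∀ ζ, 0 ≤ 10 * Cl S b ε ζ := fun ζ => mul_nonneg (by norm_num) (cl_nonneg S b ε ζ)
  have hci : ∀ i, ∀ Z' ⊆ Z, ∑ z ∈ Z', ‖c i z‖ ≤ 10 := by
    intro i Z' hZ'
    refine le_trans ?_ hc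
    refine (Finset.sum_le_sum_of_subset_of_nonneg hZ' fun _ _ _ => norm_nonneg _).trans ?_
    exact Finset.single_le_sum (f := fun i => ∑ z ∈ Z, ‖c i z‖)
      (fun j _ => Finset.sum_nonneg fun z _ => norm_nonneg _) (Finset.mem_univ i)
  -- the type 1
  have t1 : ∀ i, _ := fun i => hGf i (Z.filter fun z => (i, z) ∈ HC ∧ ¬ Ends z (k, true))
    (fun z => ‖c i z‖) (fun z hz => by
      obtain ⟨_, hz1, hz2⟩ := Finset.mem_filter.1 hz
      exact ⟨norm_nonneg _, h1 i z hz1 hz2⟩) (hci i _ (Finset.filter_subset _ _)) Θ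
  -- the type 2
  have t2 : ∀ i, _ := fun i => hGt i
    ((Z.filter fun z => (i, z) ∈ HC ∧ Ends z (k, true)).image fun z => z * el (k, false))
    (fun r => ‖c i (r * el (k, true))‖) (fun r hr => by
      obtain ⟨z, hz, rfl⟩ := Finset.mem_image.1 hr
      obtain ⟨_, hz1, hz2⟩ := Finset.mem_filter.1 hz
      exact ⟨norm_nonneg _, h2 i z hz1 hz2⟩) (by
      rw [Finset.sum_image fun x _ y _ h => mul_right_cancel h]
      refine le_trans (le_of_eq ?_) (hci i (Z.filter fun z => (i, z) ∈ HC ∧ Ends z (k, true))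
        (Finset.filter_subset _ _))
      refine Finset.sum_congr rfl fun z _ => ?_
      rw [hel, inv_mul_cancel_right]) Θ
  constructor
  · refine app_sum Z HC hHC (fun z => Ends z (k, true))
      (fun i z ζ => ‖c i z‖ * ‖b i (ζ * z⁻¹)‖) (fun i z ζ => by positivity) _ hD ε₂ Θ ?_ ?_
    · intro i
      exact (t1 i).1
    · intro i
      refine le_trans (le_of_eq ?_) (t2 i).2
      refine Finset.sum_congr rfl fun ζ _ => ?_
      rw [Finset.sum_image fun x _ y _ h => mul_right_cancel h]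
      congr 1
      refine Finset.sum_congr rfl fun z _ => ?_
      rw [hel, inv_mul_cancel_right]
  · refine app_sum Z HC hHC (fun z => Ends z (k, true))
      (fun i z ζ => ‖c i z‖ * ‖b i (ζ * (el (k, true) * z⁻¹))‖) (fun i z ζ => by positivity)
      _ hD ε₂ Θ ?_ ?_
    · intro i
      refine le_trans (le_of_eq ?_) (t1 i).2
      refine Finset.sum_congr rfl fun ζ _ => ?_
      congr 1
      refine Finset.sum_congr rfl fun z _ => ?_
      rw [hel, mul_inv_rev, inv_inv]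
    · intro i
      refine le_trans (le_of_eq ?_) (t2 i).1
      refine Finset.sum_congr rfl fun ζ _ => ?_
      rw [Finset.sum_image fun x _ y _ h => mul_right_cancel h]
      congr 1
      refine Finset.sum_congr rfl fun z _ => ?_
      rw [hel, inv_mul_cancel_right, mul_inv_rev, inv_inv]

/-- the hubs near a given point: the cloud -/
theorem app_cloud {m : ℕ} (S : Finset (FreeGroup ι)) (b : Fin m → FreeGroup ι → ℂ) (ε : ℝ)
    (c : Fin m → FreeGroup ι → ℂ) (Z : Finset (FreeGroup ι)) (hc : ∑ i, ∑ z ∈ Z, ‖c i z‖ ≤ 10)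
    (H : Finset (Fin m × FreeGroup ι)) (hH : H ⊆ univ ×ˢ Z) (u ξ : FreeGroup ι)
    (hu : ∀ η ∈ H, u * η.2⁻¹ ∈ Hv S b ε η.1) :
    ∑ η ∈ H, ‖b η.1 (ξ * η.2⁻¹)‖ * ‖c η.1 η.2‖ ≤ 10 * Cl S b ε (ξ * u⁻¹) := by
  classical
  have hci : ∀ η ∈ H, ‖c η.1 η.2‖ ≤ 10 := by
    intro η hη
    refine le_trans ?_ hc
    have h0 := Finset.mem_product.1 (hH hη)
    refine le_trans ?_ (Finset.single_le_sum (f := fun i => ∑ z ∈ Z, ‖c i z‖)
      (fun j _ => Finset.sum_nonneg fun z _ => norm_nonneg _) (Finset.mem_univ η.1))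
    exact Finset.single_le_sum (f := fun z => ‖c η.1 z‖) (fun _ _ => norm_nonneg _) h0.2
  have e1 : ∑ η ∈ H, ‖b η.1 (ξ * η.2⁻¹)‖ * ‖c η.1 η.2‖ ≤
      10 * ∑ η ∈ H, ‖b η.1 (ξ * η.2⁻¹)‖ := by
    rw [Finset.mul_sum]
    refine Finset.sum_le_sum fun η hη => ?_
    rw [mul_comm]
    exact mul_le_mul_of_nonneg_right (hci η hη) (norm_nonneg _)
  refine e1.trans (mul_le_mul_of_nonneg_left ?_ (by norm_num))
  have e2 : Cl S b ε (ξ * u⁻¹) = ∑ ζ ∈ (univ : Finset (Fin m)) ×ˢ S,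
      if ζ.2 ∈ Hv S b ε ζ.1 then ‖b ζ.1 (ξ * u⁻¹ * ζ.2)‖ else 0 := by
    unfold Cl
    rw [Finset.sum_product]
  rw [e2]
  have e3 : ∑ η ∈ H, ‖b η.1 (ξ * η.2⁻¹)‖ =
      ∑ ζ ∈ H.image (fun η => (η.1, u * η.2⁻¹)),
        if ζ.2 ∈ Hv S b ε ζ.1 then ‖b ζ.1 (ξ * u⁻¹ * ζ.2)‖ else 0 := by
    rw [Finset.sum_image]
    · refine Finset.sum_congr rfl fun η hη => ?_
      rw [if_pos (hu η hη)]
      congr 2
      group
    · intro x _ y _ h
      have h' : (x.1, u * x.2⁻¹) = (y.1, u * y.2⁻¹) := h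
      have h1 : x.1 = y.1 := (Prod.ext_iff.1 h').1
      have h2 : u * x.2⁻¹ = u * y.2⁻¹ := (Prod.ext_iff.1 h').2
      exact Prod.ext h1 (inv_injective (mul_left_cancel h2))
  rw [e3]
  refine Finset.sum_le_sum_of_subset_of_nonneg ?_ fun ζ _ _ => ?_
  · intro ζ hζ
    obtain ⟨η, hη, rfl⟩ := Finset.mem_image.1 hζ
    exact Finset.mem_product.2 ⟨Finset.mem_univ _, (hu η hη).1⟩
  · split_ifs
    · exact norm_nonneg _
    · exact le_refl _

theorem pf_APP (hFLOW : T_FLOW) (hCRM : T_CRM) (hWRD : T_WRD) : T_APP := by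
  classical
  intro m ε τ ε₁ ε₂ hε hτ hε₁ hε₂ ι _ S b hBs k hGood c Z Ξ hSZ h1Ξ haΞ hc
  obtain ⟨hG1, hGt, hGf⟩ := hGood
  obtain ⟨hG1a, hG1b⟩ := hG1
  have hel : el (k, false) = (el (k, true) : FreeGroup ι)⁻¹ :=
    (hWRD ι 1 (k, true) (k, true)).2.2.2.2.2.2.2.2.symm
  have hof : (FreeGroup.of k : FreeGroup ι) = el (k, true) := rfl
  rw [hof] at haΞ ⊢
  set a : FreeGroup ι := el (k, true) with ha
  set s : Lt ι := (k, true) with hs
  have hiv : iv s = (k, false) := rfl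
  -- the hubs
  set H : Finset (Fin m × FreeGroup ι) := univ ×ˢ Z with hH
  set H₀ : Finset (Fin m × FreeGroup ι) := H.filter fun η => η.2⁻¹ ∈ Hv S b ε η.1 with hH0
  set H₁ : Finset (Fin m × FreeGroup ι) := H.filter fun η =>
    a * η.2⁻¹ ∈ Hv S b ε η.1 ∧ ¬ η.2⁻¹ ∈ Hv S b ε η.1 with hH1
  set H₂ : Finset (Fin m × FreeGroup ι) := H.filter fun η =>
    ¬ a * η.2⁻¹ ∈ Hv S b ε η.1 ∧ ¬ η.2⁻¹ ∈ Hv S b ε η.1 with hH2
  have d01 : Disjoint H₀ H₁ := by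
    rw [Finset.disjoint_left]
    intro η h1 h2
    exact (Finset.mem_filter.1 h2).2.2 (Finset.mem_filter.1 h1).2
  have d02 : Disjoint H₀ H₂ := by
    rw [Finset.disjoint_left]
    intro η h1 h2
    exact (Finset.mem_filter.1 h2).2.2 (Finset.mem_filter.1 h1).2
  have d12 : Disjoint H₁ H₂ := by
    rw [Finset.disjoint_left]
    intro η h1 h2
    exact (Finset.mem_filter.1 h2).2.1 (Finset.mem_filter.1 h1).2.1
  have hUn : H₀ ∪ H₁ ∪ H₂ = H := by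
    ext η
    simp only [Finset.mem_union, hH0, hH1, hH2, Finset.mem_filter]
    tauto
  set W : Finset (FreeGroup ι) := Ξ.filter fun ξ => Ends ξ s with hW
  have hWΞ : W ⊆ Ξ := Finset.filter_subset _ _
  have hUp1 : Up (1 : FreeGroup ι) s := by
    unfold Up
    rw [FreeGroup.toWord_one]
    simp
  have haW : a ∈ W := by
    rw [hW, Finset.mem_filter]
    refine ⟨haΞ, ?_⟩
    have h1 := (hWRD ι 1 s s).2.2.2.2.1 hUp1
    rwa [one_mul] at h1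
  have h1W : (1 : FreeGroup ι) ∉ W := by
    intro h
    have h1 : Ends (1 : FreeGroup ι) s := (Finset.mem_filter.1 h).2
    unfold Ends at h1
    rw [FreeGroup.toWord_one] at h1
    simp at h1
  -- the flow
  set f : Fin m × FreeGroup ι → FreeGroup ι → ℝ :=
    fun η ξ => (b η.1 (ξ * η.2⁻¹) * c η.1 η.2).re with hf
  set C : Fin m × FreeGroup ι → ℝ := fun η => ‖c η.1 η.2‖ with hC
  set err : FreeGroup ι → ℝ := fun ξ => (dl a ξ - cv Z b c ξ).re with herr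
  have hfle : ∀ η ξ, |f η ξ| ≤ ‖b η.1 (ξ * η.2⁻¹)‖ * ‖c η.1 η.2‖ := fun η ξ => by
    rw [← norm_mul]
    exact Complex.abs_re_le_norm _
  have hb0 : ∀ i g, g ∉ S → b i g = 0 := fun i => (hBs i).1
  have hmem : ∀ η ∈ H, ∀ g ∈ S, g * η.2 ∈ Ξ := fun η hη g hg =>
    hSZ g hg η.2 (Finset.mem_product.1 hη).2
  have hsumC : ∑ η ∈ H, C η = ∑ i, ∑ z ∈ Z, ‖c i z‖ := by
    rw [hH, Finset.sum_product]
  have c1 : ∀ η ∈ H₀ ∪ H₁ ∪ H₂, ∑ ξ ∈ Ξ, f η ξ = 0 ∧ ∑ ξ ∈ Ξ, |f η ξ| ≤ C η := by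
    intro η hη
    rw [hUn] at hη
    constructor
    · have e1 : ∑ ξ ∈ Ξ, f η ξ = (∑ ξ ∈ Ξ, b η.1 (ξ * η.2⁻¹) * c η.1 η.2).re := by
        rw [Complex.re_sum]
      rw [e1, ← Finset.sum_mul, app_shift S Ξ η.2 (hmem η hη) (b η.1) (hb0 η.1), (hBs η.1).2.1,
        zero_mul, Complex.zero_re]
    · calc ∑ ξ ∈ Ξ, |f η ξ| ≤ ∑ ξ ∈ Ξ, ‖b η.1 (ξ * η.2⁻¹)‖ * ‖c η.1 η.2‖ :=
            Finset.sum_le_sum fun ξ _ => hfle η ξ
        _ = (∑ g ∈ S, ‖b η.1 g‖) * ‖c η.1 η.2‖ := by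
            rw [← Finset.sum_mul, app_shift S Ξ η.2 (hmem η hη) (fun g => ‖b η.1 g‖)
              fun g hg => by rw [hb0 η.1 g hg, norm_zero]]
        _ ≤ 1 * ‖c η.1 η.2‖ := mul_le_mul_of_nonneg_right (hBs η.1).2.2 (norm_nonneg _)
        _ = C η := one_mul _
  have c2 : ∀ ξ ∈ Ξ, (if ξ = 1 then (1 : ℝ) else 0) - (if ξ = a then 1 else 0) - err ξ =
      ∑ η ∈ H₀ ∪ H₁ ∪ H₂, f η ξ := by
    intro ξ _
    rw [hUn, hH, Finset.sum_product]
    have e1 : (cv Z b c ξ).re = ∑ i, ∑ z ∈ Z, f (i, z) ξ := by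
      unfold cv
      rw [Complex.re_sum]
      refine Finset.sum_congr rfl fun i _ => ?_
      rw [Complex.re_sum]
    have e2 : (dl a ξ).re = (if ξ = 1 then (1 : ℝ) else 0) - (if ξ = a then 1 else 0) := by
      unfold dl
      rw [Complex.sub_re]
      congr 1
      · split_ifs <;> simp
      · split_ifs <;> simp
    rw [← e1, herr]
    simp only [Complex.sub_re]
    rw [e2]
    ring
  have hsmall : ∀ i g, g ∉ Hv S b ε i → ‖b i g‖ ≤ ε := by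
    intro i g hg
    by_cases hS : g ∈ S
    · by_contra hcon
      exact hg ⟨hS, (not_le.1 hcon).le⟩
    · rw [hb0 i g hS, norm_zero]
      exact hε.le
  have c3 : ∀ η ∈ H₁ ∪ H₂, |f η 1| ≤ ε * C η := by
    intro η hη
    refine (hfle η 1).trans (mul_le_mul_of_nonneg_right ?_ (norm_nonneg _))
    rw [one_mul]
    apply hsmall
    rcases Finset.mem_union.1 hη with h | h
    · exact (Finset.mem_filter.1 h).2.2
    · exact (Finset.mem_filter.1 h).2.2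
  have c4 : ∀ η ∈ H₀ ∪ H₂, |f η a| ≤ ε * C η := by
    intro η hη
    refine (hfle η a).trans (mul_le_mul_of_nonneg_right ?_ (norm_nonneg _))
    apply hsmall
    rcases Finset.mem_union.1 hη with h | h
    · exact hG1a η.1 η.2⁻¹ (Finset.mem_filter.1 h).2
    · exact (Finset.mem_filter.1 h).2.1
  have c5 : ∀ ξ, 0 ≤ 10 * Cl S b ε ξ ∧ 0 ≤ 10 * Cl S b ε (ξ * a⁻¹) := fun ξ =>
    ⟨mul_nonneg (by norm_num) (cl_nonneg S b ε ξ), mul_nonneg (by norm_num) (cl_nonneg S b ε _)⟩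
  have c6 : ∀ ξ ∈ Ξ, ξ ≠ 1 → ∑ η ∈ H₀, |f η ξ| ≤ 10 * Cl S b ε ξ := by
    intro ξ _ _
    have h1 := app_cloud S b ε c Z hc H₀ (Finset.filter_subset _ _) 1 ξ fun η hη => by
      rw [one_mul]
      exact (Finset.mem_filter.1 hη).2
    rw [inv_one, mul_one] at h1
    exact (Finset.sum_le_sum fun η _ => hfle η ξ).trans h1
  have c7 : ∀ ξ ∈ Ξ, ξ ≠ a → ∑ η ∈ H₁, |f η ξ| ≤ 10 * Cl S b ε (ξ * a⁻¹) := by
    intro ξ _ _
    have h1 := app_cloud S b ε c Z hc H₁ (Finset.filter_subset _ _) a ξ fun η hη =>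
      (Finset.mem_filter.1 hη).2.1
    exact (Finset.sum_le_sum fun η _ => hfle η ξ).trans h1
  have c8 : ∑ ξ ∈ W, 10 * Cl S b ε ξ ≤ 10 * ε₁ := by
    rw [← Finset.mul_sum]
    refine mul_le_mul_of_nonneg_left ?_ (by norm_num)
    refine le_trans (le_of_eq ?_) (hG1b W)
    refine Finset.sum_congr rfl fun ξ hξ => ?_
    rw [if_pos (Or.inl (Finset.mem_filter.1 hξ).2)]
  have c9 : ∑ ξ ∈ Ξ \ W, 10 * Cl S b ε (ξ * a⁻¹) ≤ 10 * ε₁ := by
    rw [← Finset.mul_sum]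
    refine mul_le_mul_of_nonneg_left ?_ (by norm_num)
    refine le_trans (le_of_eq ?_) (hG1b ((Ξ \ W).image fun ξ => ξ * a⁻¹))
    rw [Finset.sum_image fun x _ y _ h => mul_right_cancel h]
    refine Finset.sum_congr rfl fun ξ hξ => ?_
    have h1 := Finset.mem_sdiff.1 hξ
    have h2 : ¬ Ends ξ s := fun h => h1.2 (Finset.mem_filter.2 ⟨h1.1, h⟩)
    have h3 : Up ξ (iv s) := by
      unfold Up
      unfold Ends at h2
      exact h2
    have h4 := (hWRD ι ξ (iv s) s).2.2.2.2.1 h3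
    have h5 : el (iv s) = a⁻¹ := hel
    rw [h5, hiv] at h4
    rw [if_pos (Or.inr h4)]
  -- the crossing hubs
  set HC : Finset (Fin m × FreeGroup ι) := H₂.filter fun η =>
    τ * C η < ∑ ξ ∈ W, |f η ξ| ∧ τ * C η < ∑ ξ ∈ Ξ \ W, |f η ξ| with hHC
  have hHCH : HC ⊆ H := (Finset.filter_subset _ _).trans (Finset.filter_subset _ _)
  have c10 : ∀ η ∈ H₂ \ HC, ∑ ξ ∈ W, |f η ξ| ≤ τ * C η ∨ ∑ ξ ∈ Ξ \ W, |f η ξ| ≤ τ * C η := by
    intro η hη
    obtain ⟨h1, h2⟩ := Finset.mem_sdiff.1 hη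
    by_contra hcon
    push Not at hcon
    exact h2 (Finset.mem_filter.2 ⟨h1, hcon⟩)
  have hcr : ∀ η ∈ HC, (τ < ∑ h ∈ S, if Ends (h * η.2) s then ‖b η.1 h‖ else 0) ∧
      τ < ∑ h ∈ S, if Ends (h * η.2) s then 0 else ‖b η.1 h‖ := by
    intro η hη
    have hηH := hHCH hη
    obtain ⟨_, g1, g2⟩ := Finset.mem_filter.1 hη
    have hcn : 0 ≤ ‖c η.1 η.2‖ := norm_nonneg _
    have k1 : ∑ ξ ∈ W, |f η ξ| ≤
        (∑ h ∈ S, if Ends (h * η.2) s then ‖b η.1 h‖ else 0) * ‖c η.1 η.2‖ := by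
      rw [← app_shift S Ξ η.2 (hmem η hηH) (fun h => if Ends (h * η.2) s then ‖b η.1 h‖ else 0)
        (fun g hg => by rw [hb0 η.1 g hg, norm_zero, ite_self]), Finset.sum_mul, hW,
        Finset.sum_filter]
      refine Finset.sum_le_sum fun ξ _ => ?_
      rw [inv_mul_cancel_right]
      by_cases h : Ends ξ s
      · rw [if_pos h, if_pos h]
        exact hfle η ξ
      · rw [if_neg h, if_neg h, zero_mul]
    have k2 : ∑ ξ ∈ Ξ \ W, |f η ξ| ≤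
        (∑ h ∈ S, if Ends (h * η.2) s then 0 else ‖b η.1 h‖) * ‖c η.1 η.2‖ := by
      have hWc : Ξ \ W = Ξ.filter fun ξ => ¬ Ends ξ s := by
        rw [hW, ← Finset.filter_not]
      rw [← app_shift S Ξ η.2 (hmem η hηH) (fun h => if Ends (h * η.2) s then 0 else ‖b η.1 h‖)
        (fun g hg => by rw [hb0 η.1 g hg, norm_zero, ite_self]), Finset.sum_mul, hWc,
        Finset.sum_filter]
      refine Finset.sum_le_sum fun ξ _ => ?_
      rw [inv_mul_cancel_right]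
      by_cases h : Ends ξ s
      · rw [if_pos h, if_neg (not_not.2 h), zero_mul]
      · rw [if_neg h, if_pos h]
        exact hfle η ξ
    have k3 : τ * ‖c η.1 η.2‖ <
        (∑ h ∈ S, if Ends (h * η.2) s then ‖b η.1 h‖ else 0) * ‖c η.1 η.2‖ := g1.trans_le k1
    have k4 : τ * ‖c η.1 η.2‖ <
        (∑ h ∈ S, if Ends (h * η.2) s then 0 else ‖b η.1 h‖) * ‖c η.1 η.2‖ := g2.trans_le k2
    exact ⟨lt_of_mul_lt_mul_right k3 hcn, lt_of_mul_lt_mul_right k4 hcn⟩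
  have hT1 : ∀ i z, (i, z) ∈ HC → ¬ Ends z (k, true) →
      Up z (k, false) ∧ z * el (k, false) ∈ Tree S (fun h => ‖b i h‖) τ := by
    intro i z hiz hz
    obtain ⟨g1, g2⟩ := hcr (i, z) hiz
    exact (hCRM ι S (fun h => ‖b i h‖) (fun h => norm_nonneg _) τ z s g1 g2).1 hz
  have hT2 : ∀ i z, (i, z) ∈ HC → Ends z (k, true) →
      Up (z * el (k, false)) (k, true) ∧
        z * el (k, false) * el (k, true) ∈ Tree S (fun h => ‖b i h‖) τ := by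
    intro i z hiz hz
    obtain ⟨g1, g2⟩ := hcr (i, z) hiz
    exact (hCRM ι S (fun h => ‖b i h‖) (fun h => norm_nonneg _) τ z s g1 g2).2 hz
  have c11 : ∑ ξ ∈ Ξ \ W, min (10 * Cl S b ε ξ) (∑ η ∈ HC, |f η ξ|) ≤ 2 * m * ε₂ := by
    refine le_trans (Finset.sum_le_sum fun ξ _ => ?_)
      (app_hc S b ε τ ε₂ k hGt hGf hel c Z hc HC hHCH hT1 hT2 (Ξ \ W)).1
    refine min_le_min le_rfl (Finset.sum_le_sum fun η _ => ?_)
    rw [mul_comm]
    exact hfle η ξ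
  have c12 : ∑ ξ ∈ W, min (10 * Cl S b ε (ξ * a⁻¹)) (∑ η ∈ HC, |f η ξ|) ≤ 2 * m * ε₂ := by
    refine le_trans ?_
      (app_hc S b ε τ ε₂ k hGt hGf hel c Z hc HC hHCH hT1 hT2 (W.image fun ξ => ξ * a⁻¹)).2
    rw [Finset.sum_image fun x _ y _ h => mul_right_cancel h]
    refine Finset.sum_le_sum fun ξ _ => ?_
    refine min_le_min le_rfl (Finset.sum_le_sum fun η _ => ?_)
    have e1 : ξ * a⁻¹ * (el (k, true) * η.2⁻¹) = ξ * η.2⁻¹ := by
      show ξ * a⁻¹ * (a * η.2⁻¹) = ξ * η.2⁻¹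
      group
    rw [e1, mul_comm]
    exact hfle η ξ
  have key := hFLOW (Fin m × FreeGroup ι) (FreeGroup ι) H₀ H₁ H₂ d01 d02 d12 Ξ W 1 a h1Ξ hWΞ haW
    h1W f C err (fun ξ => 10 * Cl S b ε ξ) (fun ξ => 10 * Cl S b ε (ξ * a⁻¹)) ε (10 * ε₁) τ
    (2 * m * ε₂) hε.le hτ.le c1 c2 c3 c4 c5 c6 c7 c8 c9 HC (Finset.filter_subset _ _) c10 c11 c12
  rw [hUn, hsumC] at key
  have k1 : ∑ ξ ∈ Ξ, |err ξ| ≤ ∑ ξ ∈ Ξ, ‖dl a ξ - cv Z b c ξ‖ :=
    Finset.sum_le_sum fun ξ _ => Complex.abs_re_le_norm _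
  have k2 : (12 * ε + 4 * τ) * ∑ i, ∑ z ∈ Z, ‖c i z‖ ≤ (12 * ε + 4 * τ) * 10 :=
    mul_le_mul_of_nonneg_left hc (by positivity)
  linarith

end Pool.Agent.H4.FCX
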