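import Pool.Agent.H81.FX.Targets

/-!
# Board `fcx_modules`, row FLOW: the abstract flow inequality
-/

set_option autoImplicit false

open Pool.Agent.H81.FX Finset

namespace Pool.Agent.H4.FCX

theorem flow_max (x : ℝ) : max x 0 = (|x| + x) / 2 := by
  rcases le_total 0 x with h | h
  · rw [max_eq_left h, abs_of_nonneg h]
    ring
  · rw [max_eq_right h, abs_of_nonpos h]
    ring

theorem flow_max' (x : ℝ) : max (-x) 0 = (|x| - x) / 2 := by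
  rw [flow_max, abs_neg]
  ring

theorem flow_half {β : Type} (Ξ : Finset β) (g : β → ℝ) (C : ℝ) (h0 : ∑ ξ ∈ Ξ, g ξ = 0)
    (h1 : ∑ ξ ∈ Ξ, |g ξ| ≤ C) :
    ∑ ξ ∈ Ξ, max (g ξ) 0 ≤ C / 2 ∧ ∑ ξ ∈ Ξ, max (-g ξ) 0 ≤ C / 2 ∧ ∀ ξ ∈ Ξ, |g ξ| ≤ C / 2 := by
  have a1 : ∑ ξ ∈ Ξ, max (g ξ) 0 ≤ C / 2 := by
    rw [Finset.sum_congr rfl fun ξ _ => flow_max (g ξ), ← Finset.sum_div, Finset.sum_add_distrib,
      h0]
    linarith
  have a2 : ∑ ξ ∈ Ξ, max (-g ξ) 0 ≤ C / 2 := by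
    rw [Finset.sum_congr rfl fun ξ _ => flow_max' (g ξ), ← Finset.sum_div, Finset.sum_sub_distrib,
      h0]
    linarith
  refine ⟨a1, a2, fun ξ hξ => ?_⟩
  have b1 : max (g ξ) 0 ≤ ∑ ξ ∈ Ξ, max (g ξ) 0 :=
    Finset.single_le_sum (f := fun ξ => max (g ξ) 0) (fun _ _ => le_max_right _ _) hξ
  have b2 : max (-g ξ) 0 ≤ ∑ ξ ∈ Ξ, max (-g ξ) 0 :=
    Finset.single_le_sum (f := fun ξ => max (-g ξ) 0) (fun _ _ => le_max_right _ _) hξ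
  rw [abs_le]
  constructor
  · have := le_max_left (-g ξ) 0
    linarith
  · have := le_max_left (g ξ) 0
    linarith

theorem flow_rho (U v : ℝ) (hU : 0 ≤ U) :
    0 ≤ min U |v| / U ∧ min U |v| / U ≤ 1 ∧ min U |v| / U * U = min U |v| := by
  have h0 : 0 ≤ min U |v| := le_min hU (abs_nonneg v)
  refine ⟨div_nonneg h0 hU, div_le_one_of_le₀ (min_le_left _ _) hU, ?_⟩
  rcases hU.eq_or_lt with h | h
  · rw [← h, mul_zero, min_eq_left (abs_nonneg v)]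
  · exact div_mul_cancel₀ _ h.ne'

theorem flow_two {α β : Type} [DecidableEq α] [DecidableEq β] (H₂ HC : Finset α) (hHC : HC ⊆ H₂)
    (Ξ W : Finset β) (hW : W ⊆ Ξ) (f : α → β → ℝ) (C : α → ℝ) (v0 v1 r D0 D1 : β → ℝ)
    (τ ε2 : ℝ) (hτ : 0 ≤ τ)
    (hf : ∀ η ∈ H₂, ∑ ξ ∈ Ξ, f η ξ = 0 ∧ ∑ ξ ∈ Ξ, |f η ξ| ≤ C η)
    (hu : ∀ ξ ∈ Ξ, ∑ η ∈ H₂, f η ξ = v0 ξ - v1 ξ + r ξ)
    (h0 : ∀ ξ ∈ Ξ, |v0 ξ| ≤ D0 ξ) (h1 : ∀ ξ ∈ Ξ, |v1 ξ| ≤ D1 ξ)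
    (hcond : ∀ η ∈ H₂ \ HC, ∑ ξ ∈ W, |f η ξ| ≤ τ * C η ∨ ∑ ξ ∈ Ξ \ W, |f η ξ| ≤ τ * C η)
    (hm0 : ∑ ξ ∈ Ξ \ W, min (D0 ξ) (∑ η ∈ HC, |f η ξ|) ≤ ε2)
    (hm1 : ∑ ξ ∈ W, min (D1 ξ) (∑ η ∈ HC, |f η ξ|) ≤ ε2) :
    ∑ ξ ∈ Ξ \ W, (v0 ξ - |v1 ξ| - |r ξ|) + ∑ ξ ∈ W, (v1 ξ - |v0 ξ| - |r ξ|) +
      ∑ ξ ∈ Ξ \ W, ∑ η ∈ H₂, f η ξ ≤
      1 / 2 * ∑ η ∈ H₂, C η + 2 * τ * ∑ η ∈ H₂, C η + 2 * ε2 := by
  have hp0 : ∀ η ξ, 0 ≤ max (f η ξ) 0 := fun η ξ => le_max_right _ _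
  have hn0 : ∀ η ξ, 0 ≤ max (-f η ξ) 0 := fun η ξ => le_max_right _ _
  have hpa : ∀ η ξ, max (f η ξ) 0 ≤ |f η ξ| := fun η ξ => max_le (le_abs_self _) (abs_nonneg _)
  have hna : ∀ η ξ, max (-f η ξ) 0 ≤ |f η ξ| := fun η ξ =>
    max_le (neg_le_abs _) (abs_nonneg _)
  set U : β → ℝ := fun ξ => ∑ η ∈ H₂, max (f η ξ) 0 with hU
  set V : β → ℝ := fun ξ => ∑ η ∈ H₂, max (-f η ξ) 0 with hV
  have hU0 : ∀ ξ, 0 ≤ U ξ := fun ξ => Finset.sum_nonneg fun η _ => hp0 η ξ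
  have hV0 : ∀ ξ, 0 ≤ V ξ := fun ξ => Finset.sum_nonneg fun η _ => hn0 η ξ
  set ρ : β → ℝ := fun ξ => min (U ξ) |v0 ξ| / U ξ with hρ
  set σ : β → ℝ := fun ξ => min (V ξ) |v1 ξ| / V ξ with hσ
  have hρ' := fun ξ => flow_rho (U ξ) (v0 ξ) (hU0 ξ)
  have hσ' := fun ξ => flow_rho (V ξ) (v1 ξ) (hV0 ξ)
  set A : α → ℝ := fun η => ∑ ξ ∈ Ξ \ W, ρ ξ * max (f η ξ) 0 with hA
  set B : α → ℝ := fun η => ∑ ξ ∈ W, σ ξ * max (-f η ξ) 0 with hB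
  set X : α → ℝ := fun η => ∑ ξ ∈ Ξ \ W, f η ξ with hX
  have hsplit : ∀ g : β → ℝ, ∑ ξ ∈ Ξ \ W, g ξ + ∑ ξ ∈ W, g ξ = ∑ ξ ∈ Ξ, g ξ := fun g =>
    Finset.sum_sdiff hW
  have hA1 : ∀ η, A η ≤ ∑ ξ ∈ Ξ \ W, max (f η ξ) 0 := fun η =>
    Finset.sum_le_sum fun ξ _ => mul_le_of_le_one_left (hp0 η ξ) (hρ' ξ).2.1
  have hB1 : ∀ η, B η ≤ ∑ ξ ∈ W, max (-f η ξ) 0 := fun η =>
    Finset.sum_le_sum fun ξ _ => mul_le_of_le_one_left (hn0 η ξ) (hσ' ξ).2.1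
  have hA0 : ∀ η, 0 ≤ A η := fun η =>
    Finset.sum_nonneg fun ξ _ => mul_nonneg (hρ' ξ).1 (hp0 η ξ)
  have hB0 : ∀ η, 0 ≤ B η := fun η =>
    Finset.sum_nonneg fun ξ _ => mul_nonneg (hσ' ξ).1 (hn0 η ξ)
  have hX1 : ∀ η, X η ≤ ∑ ξ ∈ Ξ \ W, max (f η ξ) 0 := fun η =>
    Finset.sum_le_sum fun ξ _ => le_max_left _ _
  have hX2 : ∀ η ∈ H₂, X η ≤ ∑ ξ ∈ W, max (-f η ξ) 0 := by
    intro η hη
    have e1 := hsplit (f η)
    rw [(hf η hη).1] at e1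
    have e2 : ∑ ξ ∈ W, -f η ξ ≤ ∑ ξ ∈ W, max (-f η ξ) 0 :=
      Finset.sum_le_sum fun ξ _ => le_max_left _ _
    rw [Finset.sum_neg_distrib] at e2
    show ∑ ξ ∈ Ξ \ W, f η ξ ≤ _
    linarith
  -- the bound for every hub
  have hpt : ∀ η ∈ H₂, A η + B η + X η ≤
      1 / 2 * C η + 2 * τ * C η + (if η ∈ HC then A η + B η else 0) := by
    intro η hη
    obtain ⟨c1, c2⟩ := hf η hη
    obtain ⟨d1, d2, -⟩ := flow_half Ξ (f η) (C η) c1 c2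
    have hC0 : 0 ≤ C η := (Finset.sum_nonneg fun ξ _ => abs_nonneg (f η ξ)).trans c2
    have e1 := hsplit fun ξ => max (f η ξ) 0
    have e2 := hsplit fun ξ => max (-f η ξ) 0
    have e3 : 0 ≤ ∑ ξ ∈ W, max (f η ξ) 0 := Finset.sum_nonneg fun ξ _ => hp0 η ξ
    have e4 : 0 ≤ ∑ ξ ∈ Ξ \ W, max (-f η ξ) 0 := Finset.sum_nonneg fun ξ _ => hn0 η ξ
    have hτC : 0 ≤ τ * C η := mul_nonneg hτ hC0
    have b1 := hA1 η
    have b2 := hB1 η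
    have b3 := hX1 η
    have b4 := hX2 η hη
    by_cases hc : η ∈ HC
    · rw [if_pos hc]
      linarith
    · rw [if_neg hc]
      rcases hcond η (Finset.mem_sdiff.2 ⟨hη, hc⟩) with h | h
      · have e5 : ∑ ξ ∈ W, max (-f η ξ) 0 ≤ ∑ ξ ∈ W, |f η ξ| :=
          Finset.sum_le_sum fun ξ _ => hna η ξ
        linarith
      · have e5 : ∑ ξ ∈ Ξ \ W, max (f η ξ) 0 ≤ ∑ ξ ∈ Ξ \ W, |f η ξ| :=
          Finset.sum_le_sum fun ξ _ => hpa η ξ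
        linarith
  have hsum := Finset.sum_le_sum hpt
  rw [Finset.sum_add_distrib, Finset.sum_add_distrib, Finset.sum_add_distrib,
    Finset.sum_add_distrib, ← Finset.mul_sum, ← Finset.mul_sum, Finset.sum_ite_mem,
    Finset.inter_eq_right.2 hHC, Finset.sum_add_distrib] at hsum
  -- sums over all hubs
  have sA : ∑ η ∈ H₂, A η = ∑ ξ ∈ Ξ \ W, min (U ξ) |v0 ξ| := by
    rw [hA, Finset.sum_comm]
    refine Finset.sum_congr rfl fun ξ _ => ?_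
    rw [← Finset.mul_sum]
    exact (hρ' ξ).2.2
  have sB : ∑ η ∈ H₂, B η = ∑ ξ ∈ W, min (V ξ) |v1 ξ| := by
    rw [hB, Finset.sum_comm]
    refine Finset.sum_congr rfl fun ξ _ => ?_
    rw [← Finset.mul_sum]
    exact (hσ' ξ).2.2
  have sX : ∑ η ∈ H₂, X η = ∑ ξ ∈ Ξ \ W, ∑ η ∈ H₂, f η ξ := by
    rw [hX, Finset.sum_comm]
  have hUu : ∀ ξ, ∑ η ∈ H₂, f η ξ ≤ U ξ := fun ξ =>
    Finset.sum_le_sum fun η _ => le_max_left _ _
  have hVu : ∀ ξ, -∑ η ∈ H₂, f η ξ ≤ V ξ := fun ξ => by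
    rw [← Finset.sum_neg_distrib]
    exact Finset.sum_le_sum fun η _ => le_max_left _ _
  have lA : ∑ ξ ∈ Ξ \ W, (v0 ξ - |v1 ξ| - |r ξ|) ≤ ∑ η ∈ H₂, A η := by
    rw [sA]
    refine Finset.sum_le_sum fun ξ hξ => le_min ?_ ?_
    · have c1 := hUu ξ
      rw [hu ξ (Finset.mem_sdiff.1 hξ).1] at c1
      linarith [le_abs_self (v1 ξ), neg_abs_le (r ξ)]
    · linarith [le_abs_self (v0 ξ), abs_nonneg (v1 ξ), abs_nonneg (r ξ)]
  have lB : ∑ ξ ∈ W, (v1 ξ - |v0 ξ| - |r ξ|) ≤ ∑ η ∈ H₂, B η := by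
    rw [sB]
    refine Finset.sum_le_sum fun ξ hξ => le_min ?_ ?_
    · have c1 := hVu ξ
      rw [hu ξ (hW hξ)] at c1
      linarith [le_abs_self (v0 ξ), le_abs_self (r ξ)]
    · linarith [le_abs_self (v1 ξ), abs_nonneg (v0 ξ), abs_nonneg (r ξ)]
  -- sums over HC
  have cA : ∑ η ∈ HC, A η ≤ ε2 := by
    refine le_trans ?_ hm0
    rw [hA, Finset.sum_comm]
    refine Finset.sum_le_sum fun ξ hξ => ?_
    rw [← Finset.mul_sum]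
    have c0 : 0 ≤ ∑ η ∈ HC, max (f η ξ) 0 := Finset.sum_nonneg fun η _ => hp0 η ξ
    refine le_min ?_ ?_
    · have c1 : ∑ η ∈ HC, max (f η ξ) 0 ≤ U ξ :=
        Finset.sum_le_sum_of_subset_of_nonneg hHC fun η _ _ => hp0 η ξ
      calc ρ ξ * ∑ η ∈ HC, max (f η ξ) 0 ≤ ρ ξ * U ξ :=
            mul_le_mul_of_nonneg_left c1 (hρ' ξ).1
        _ = min (U ξ) |v0 ξ| := (hρ' ξ).2.2
        _ ≤ |v0 ξ| := min_le_right _ _
        _ ≤ D0 ξ := h0 ξ (Finset.mem_sdiff.1 hξ).1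
    · calc ρ ξ * ∑ η ∈ HC, max (f η ξ) 0 ≤ ∑ η ∈ HC, max (f η ξ) 0 :=
            mul_le_of_le_one_left c0 (hρ' ξ).2.1
        _ ≤ ∑ η ∈ HC, |f η ξ| := Finset.sum_le_sum fun η _ => hpa η ξ
  have cB : ∑ η ∈ HC, B η ≤ ε2 := by
    refine le_trans ?_ hm1
    rw [hB, Finset.sum_comm]
    refine Finset.sum_le_sum fun ξ hξ => ?_
    rw [← Finset.mul_sum]
    have c0 : 0 ≤ ∑ η ∈ HC, max (-f η ξ) 0 := Finset.sum_nonneg fun η _ => hn0 η ξ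
    refine le_min ?_ ?_
    · have c1 : ∑ η ∈ HC, max (-f η ξ) 0 ≤ V ξ :=
        Finset.sum_le_sum_of_subset_of_nonneg hHC fun η _ _ => hn0 η ξ
      calc σ ξ * ∑ η ∈ HC, max (-f η ξ) 0 ≤ σ ξ * V ξ :=
            mul_le_mul_of_nonneg_left c1 (hσ' ξ).1
        _ = min (V ξ) |v1 ξ| := (hσ' ξ).2.2
        _ ≤ |v1 ξ| := min_le_right _ _
        _ ≤ D1 ξ := h1 ξ (hW hξ)
    · calc σ ξ * ∑ η ∈ HC, max (-f η ξ) 0 ≤ ∑ η ∈ HC, max (-f η ξ) 0 :=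
            mul_le_of_le_one_left c0 (hσ' ξ).2.1
        _ ≤ ∑ η ∈ HC, |f η ξ| := Finset.sum_le_sum fun η _ => hna η ξ
  rw [sX] at hsum
  linarith

theorem pf_FLOW : T_FLOW := by
  intro α β _ _ H₀ H₁ H₂ d01 d02 d12 Ξ W e a he hW ha heW f C err D₀ D₁ ε ε₁ τ ε₂ hε hτ hf hid
    hfe hfa hD hD0 hD1 hW0 hW1 HC hHC hcond hm0 hm1
  have haΞ : a ∈ Ξ := hW ha
  have hea : e ≠ a := fun h => heW (h ▸ ha)
  have d012 : Disjoint (H₀ ∪ H₁) H₂ := Finset.disjoint_union_left.2 ⟨d02, d12⟩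
  have hs : ∀ g : α → ℝ, ∑ η ∈ H₀ ∪ H₁ ∪ H₂, g η =
      ∑ η ∈ H₀, g η + ∑ η ∈ H₁, g η + ∑ η ∈ H₂, g η := fun g => by
    rw [Finset.sum_union d012, Finset.sum_union d01]
  have m0 : ∀ η ∈ H₀, η ∈ H₀ ∪ H₁ ∪ H₂ := fun η h =>
    Finset.mem_union_left _ (Finset.mem_union_left _ h)
  have m1 : ∀ η ∈ H₁, η ∈ H₀ ∪ H₁ ∪ H₂ := fun η h =>
    Finset.mem_union_left _ (Finset.mem_union_right _ h)
  have m2 : ∀ η ∈ H₂, η ∈ H₀ ∪ H₁ ∪ H₂ := fun η h => Finset.mem_union_right _ h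
  have hC0 : ∀ η ∈ H₀ ∪ H₁ ∪ H₂, 0 ≤ C η := fun η hη =>
    (Finset.sum_nonneg fun ξ _ => abs_nonneg (f η ξ)).trans (hf η hη).2
  set g0 := ∑ η ∈ H₀, C η with hg0
  set g1 := ∑ η ∈ H₁, C η with hg1
  set g2 := ∑ η ∈ H₂, C η with hg2
  have g0n : 0 ≤ g0 := Finset.sum_nonneg fun η h => hC0 η (m0 η h)
  have g1n : 0 ≤ g1 := Finset.sum_nonneg fun η h => hC0 η (m1 η h)
  have g2n : 0 ≤ g2 := Finset.sum_nonneg fun η h => hC0 η (m2 η h)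
  set u0 : β → ℝ := fun ξ => ∑ η ∈ H₀, f η ξ with hu0
  set u1 : β → ℝ := fun ξ => ∑ η ∈ H₁, f η ξ with hu1
  set u2 : β → ℝ := fun ξ => ∑ η ∈ H₂, f η ξ with hu2
  have hid' : ∀ ξ ∈ Ξ, (if ξ = e then (1 : ℝ) else 0) - (if ξ = a then 1 else 0) - err ξ =
      u0 ξ + u1 ξ + u2 ξ := fun ξ hξ => by rw [hid ξ hξ, hs]
  have hsplit : ∀ g : β → ℝ, ∑ ξ ∈ Ξ \ W, g ξ + ∑ ξ ∈ W, g ξ = ∑ ξ ∈ Ξ, g ξ := fun g =>
    Finset.sum_sdiff hW
  have su0 : ∑ ξ ∈ Ξ, u0 ξ = 0 := by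
    rw [hu0, Finset.sum_comm]
    exact Finset.sum_eq_zero fun η h => (hf η (m0 η h)).1
  have su1 : ∑ ξ ∈ Ξ, u1 ξ = 0 := by
    rw [hu1, Finset.sum_comm]
    exact Finset.sum_eq_zero fun η h => (hf η (m1 η h)).1
  have su2 : ∑ ξ ∈ Ξ, u2 ξ = 0 := by
    rw [hu2, Finset.sum_comm]
    exact Finset.sum_eq_zero fun η h => (hf η (m2 η h)).1
  -- bounds at e and a
  have b1e : |u1 e| ≤ ε * g1 := by
    rw [hg1, Finset.mul_sum]
    exact (Finset.abs_sum_le_sum_abs _ _).trans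
      (Finset.sum_le_sum fun η h => hfe η (Finset.mem_union_left _ h))
  have b2e : |u2 e| ≤ ε * g2 := by
    rw [hg2, Finset.mul_sum]
    exact (Finset.abs_sum_le_sum_abs _ _).trans
      (Finset.sum_le_sum fun η h => hfe η (Finset.mem_union_right _ h))
  have b0a : |u0 a| ≤ ε * g0 := by
    rw [hg0, Finset.mul_sum]
    exact (Finset.abs_sum_le_sum_abs _ _).trans
      (Finset.sum_le_sum fun η h => hfa η (Finset.mem_union_left _ h))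
  have b2a : |u2 a| ≤ ε * g2 := by
    rw [hg2, Finset.mul_sum]
    exact (Finset.abs_sum_le_sum_abs _ _).trans
      (Finset.sum_le_sum fun η h => hfa η (Finset.mem_union_right _ h))
  have hge : 2 * u0 e ≤ g0 := by
    have h1 : u0 e ≤ ∑ η ∈ H₀, C η / 2 := Finset.sum_le_sum fun η h =>
      (le_abs_self _).trans ((flow_half Ξ (f η) (C η) (hf η (m0 η h)).1 (hf η (m0 η h)).2).2.2 e he)
    rw [← Finset.sum_div] at h1
    linarith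
  have hga : 2 * (-u1 a) ≤ g1 := by
    have h1 : -u1 a ≤ ∑ η ∈ H₁, C η / 2 := by
      rw [hu1, ← Finset.sum_neg_distrib]
      exact Finset.sum_le_sum fun η h => (neg_le_abs _).trans
        ((flow_half Ξ (f η) (C η) (hf η (m1 η h)).1 (hf η (m1 η h)).2).2.2 a haΞ)
    rw [← Finset.sum_div] at h1
    linarith
  have ide := hid' e he
  have ida := hid' a haΞ
  rw [if_pos rfl, if_neg hea] at ide
  rw [if_neg hea.symm, if_pos rfl] at ida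
  -- the functions v0, v1, r
  set v0 : β → ℝ := fun ξ => if ξ = e then 0 else -u0 ξ with hv0
  set v1 : β → ℝ := fun ξ => if ξ = a then 0 else u1 ξ with hv1
  set r : β → ℝ := fun ξ => u2 ξ - v0 ξ + v1 ξ with hr
  have v0D : ∀ ξ ∈ Ξ, |v0 ξ| ≤ D₀ ξ := by
    intro ξ hξ
    by_cases h : ξ = e
    · have : v0 ξ = 0 := if_pos h
      rw [this, abs_zero]
      exact (hD ξ).1
    · have : v0 ξ = -u0 ξ := if_neg h
      rw [this, abs_neg]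
      exact (Finset.abs_sum_le_sum_abs _ _).trans (hD0 ξ hξ h)
  have v1D : ∀ ξ ∈ Ξ, |v1 ξ| ≤ D₁ ξ := by
    intro ξ hξ
    by_cases h : ξ = a
    · have : v1 ξ = 0 := if_pos h
      rw [this, abs_zero]
      exact (hD ξ).2
    · have : v1 ξ = u1 ξ := if_neg h
      rw [this]
      exact (Finset.abs_sum_le_sum_abs _ _).trans (hD1 ξ hξ h)
  have sv0 : ∑ ξ ∈ Ξ, v0 ξ = u0 e := by
    have h1 : ∀ ξ ∈ Ξ, v0 ξ = -u0 ξ + if ξ = e then u0 e else 0 := by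
      intro ξ _
      by_cases h : ξ = e
      · have : v0 ξ = 0 := if_pos h
        rw [this, if_pos h, h]
        ring
      · have : v0 ξ = -u0 ξ := if_neg h
        rw [this, if_neg h]
        ring
    rw [Finset.sum_congr rfl h1, Finset.sum_add_distrib, Finset.sum_neg_distrib, su0,
      Finset.sum_ite_eq', if_pos he]
    ring
  have sv1 : ∑ ξ ∈ Ξ, v1 ξ = -u1 a := by
    have h1 : ∀ ξ ∈ Ξ, v1 ξ = u1 ξ + if ξ = a then -u1 a else 0 := by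
      intro ξ _
      by_cases h : ξ = a
      · have : v1 ξ = 0 := if_pos h
        rw [this, if_pos h, h]
        ring
      · have : v1 ξ = u1 ξ := if_neg h
        rw [this, if_neg h]
        ring
    rw [Finset.sum_congr rfl h1, Finset.sum_add_distrib, su1, Finset.sum_ite_eq', if_pos haΞ]
    ring
  have key := flow_two H₂ HC hHC Ξ W hW f C v0 v1 r D₀ D₁ τ ε₂ hτ (fun η h => hf η (m2 η h))
    (fun ξ _ => by
      show u2 ξ = v0 ξ - v1 ξ + (u2 ξ - v0 ξ + v1 ξ)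
      ring) v0D v1D hcond hm0 hm1
  -- the sums in the key inequality
  have k1 : u0 e - 2 * ε₁ - ∑ ξ ∈ Ξ \ W, |r ξ| ≤ ∑ ξ ∈ Ξ \ W, (v0 ξ - |v1 ξ| - |r ξ|) := by
    rw [Finset.sum_sub_distrib, Finset.sum_sub_distrib]
    have c1 := hsplit v0
    rw [sv0] at c1
    have c2 : ∑ ξ ∈ W, v0 ξ ≤ ∑ ξ ∈ W, D₀ ξ :=
      Finset.sum_le_sum fun ξ h => (le_abs_self _).trans (v0D ξ (hW h))
    have c3 : ∑ ξ ∈ Ξ \ W, |v1 ξ| ≤ ∑ ξ ∈ Ξ \ W, D₁ ξ :=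
      Finset.sum_le_sum fun ξ h => v1D ξ (Finset.mem_sdiff.1 h).1
    linarith
  have k2 : -u1 a - 2 * ε₁ - ∑ ξ ∈ W, |r ξ| ≤ ∑ ξ ∈ W, (v1 ξ - |v0 ξ| - |r ξ|) := by
    rw [Finset.sum_sub_distrib, Finset.sum_sub_distrib]
    have c1 := hsplit v1
    rw [sv1] at c1
    have c2 : ∑ ξ ∈ Ξ \ W, v1 ξ ≤ ∑ ξ ∈ Ξ \ W, D₁ ξ :=
      Finset.sum_le_sum fun ξ h => (le_abs_self _).trans (v1D ξ (Finset.mem_sdiff.1 h).1)
    have c3 : ∑ ξ ∈ W, |v0 ξ| ≤ ∑ ξ ∈ W, D₀ ξ :=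
      Finset.sum_le_sum fun ξ h => v0D ξ (hW h)
    linarith
  set E : ℝ := ∑ ξ ∈ Ξ, |err ξ| with hE
  have serr : ∑ ξ ∈ Ξ, err ξ = 0 := by
    have h1 : ∑ ξ ∈ Ξ, ((if ξ = e then (1 : ℝ) else 0) - (if ξ = a then 1 else 0) - err ξ) =
        ∑ ξ ∈ Ξ, (u0 ξ + u1 ξ + u2 ξ) := Finset.sum_congr rfl hid'
    rw [Finset.sum_sub_distrib, Finset.sum_sub_distrib, Finset.sum_add_distrib,
      Finset.sum_add_distrib, su0, su1, su2, Finset.sum_ite_eq', Finset.sum_ite_eq', if_pos he,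
      if_pos haΞ] at h1
    linarith
  have k3 : 1 - E / 2 - 2 * ε₁ ≤ ∑ ξ ∈ Ξ \ W, ∑ η ∈ H₂, f η ξ := by
    have h1 : ∑ ξ ∈ Ξ \ W, ((if ξ = e then (1 : ℝ) else 0) - (if ξ = a then 1 else 0) - err ξ) =
        ∑ ξ ∈ Ξ \ W, (u0 ξ + u1 ξ + u2 ξ) :=
      Finset.sum_congr rfl fun ξ h => hid' ξ (Finset.mem_sdiff.1 h).1
    have h2 : e ∈ Ξ \ W := Finset.mem_sdiff.2 ⟨he, heW⟩
    have h3 : a ∉ Ξ \ W := fun h => (Finset.mem_sdiff.1 h).2 ha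
    rw [Finset.sum_sub_distrib, Finset.sum_sub_distrib, Finset.sum_add_distrib,
      Finset.sum_add_distrib, Finset.sum_ite_eq', Finset.sum_ite_eq', if_pos h2, if_neg h3] at h1
    have c1 := hsplit u0
    rw [su0] at c1
    have c2 : -ε₁ ≤ ∑ ξ ∈ W, u0 ξ := by
      have c3 : -∑ ξ ∈ W, u0 ξ ≤ ∑ ξ ∈ W, D₀ ξ := by
        rw [← Finset.sum_neg_distrib]
        refine Finset.sum_le_sum fun ξ h => ?_
        refine (neg_le_abs _).trans ?_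
        refine (Finset.abs_sum_le_sum_abs _ _).trans (hD0 ξ (hW h) ?_)
        intro h4
        exact heW (h4 ▸ h)
      linarith
    have c4 : ∑ ξ ∈ Ξ \ W, u1 ξ ≤ ε₁ := by
      have c3 : ∑ ξ ∈ Ξ \ W, u1 ξ ≤ ∑ ξ ∈ Ξ \ W, D₁ ξ := by
        refine Finset.sum_le_sum fun ξ h => ?_
        refine (le_abs_self _).trans ?_
        refine (Finset.abs_sum_le_sum_abs _ _).trans (hD1 ξ (Finset.mem_sdiff.1 h).1 ?_)
        intro h4
        exact h3 (h4 ▸ h)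
      linarith
    have c5 : ∑ ξ ∈ Ξ \ W, err ξ ≤ E / 2 := by
      have c6 := hsplit err
      rw [serr] at c6
      have c7 := hsplit fun ξ => |err ξ|
      have c8 : ∑ ξ ∈ Ξ \ W, err ξ ≤ ∑ ξ ∈ Ξ \ W, |err ξ| :=
        Finset.sum_le_sum fun ξ _ => le_abs_self _
      have c9 : -∑ ξ ∈ W, err ξ ≤ ∑ ξ ∈ W, |err ξ| := by
        rw [← Finset.sum_neg_distrib]
        exact Finset.sum_le_sum fun ξ _ => neg_le_abs _
      rw [← hE] at c7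
      linarith
    have c10 : ∑ ξ ∈ Ξ \ W, u2 ξ = ∑ ξ ∈ Ξ \ W, ∑ η ∈ H₂, f η ξ := rfl
    linarith
  -- the sum of |r|
  have hre : |r e| ≤ ε * g1 + ε * g2 := by
    have h1 : r e = u2 e + u1 e := by
      have e1 : v0 e = 0 := if_pos rfl
      have e2 : v1 e = u1 e := if_neg hea
      show u2 e - v0 e + v1 e = _
      rw [e1, e2]
      ring
    rw [h1]
    have := abs_add_le (u2 e) (u1 e)
    linarith
  have hra : |r a| ≤ ε * g0 + ε * g2 := by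
    have h1 : r a = u2 a + u0 a := by
      have e1 : v0 a = -u0 a := if_neg hea.symm
      have e2 : v1 a = 0 := if_pos rfl
      show u2 a - v0 a + v1 a = _
      rw [e1, e2]
      ring
    rw [h1]
    have := abs_add_le (u2 a) (u0 a)
    linarith
  have hR : ∑ ξ ∈ Ξ, |r ξ| ≤ E - |err e| - |err a| + (|r e| + |r a|) := by
    have h1 : ∀ ξ ∈ Ξ, |r ξ| ≤ |err ξ| + (if ξ = e then |r e| - |err e| else 0) +
        (if ξ = a then |r a| - |err a| else 0) := by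
      intro ξ hξ
      by_cases h : ξ = e
      · rw [if_pos h, if_neg (fun h' => hea (h.symm.trans h')), h]
        linarith
      · by_cases h' : ξ = a
        · rw [if_neg h, if_pos h', h']
          linarith
        · rw [if_neg h, if_neg h']
          have e1 : v0 ξ = -u0 ξ := if_neg h
          have e2 : v1 ξ = u1 ξ := if_neg h'
          have e3 := hid' ξ hξ
          rw [if_neg h, if_neg h'] at e3
          have e4 : r ξ = -err ξ := by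
            show u2 ξ - v0 ξ + v1 ξ = _
            rw [e1, e2]
            linarith
          rw [e4, abs_neg]
          linarith
    refine (Finset.sum_le_sum h1).trans ?_
    rw [Finset.sum_add_distrib, Finset.sum_add_distrib, Finset.sum_ite_eq', Finset.sum_ite_eq',
      if_pos he, if_pos haΞ]
    linarith
  have hR2 := hsplit fun ξ => |r ξ|
  have hEea : |err e| + |err a| ≤ E := by
    have h1 : ∑ ξ ∈ {e, a}, |err ξ| ≤ E := by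
      refine Finset.sum_le_sum_of_subset_of_nonneg ?_ fun _ _ _ => abs_nonneg _
      intro ξ hξ
      rw [Finset.mem_insert, Finset.mem_singleton] at hξ
      rcases hξ with h | h
      · rw [h]
        exact he
      · rw [h]
        exact haΞ
    rwa [Finset.sum_pair hea] at h1
  have q1 := le_abs_self (err e)
  have q2 := neg_abs_le (err a)
  have q3 := (abs_le.1 b1e).2
  have q4 := (abs_le.1 b2e).2
  have q5 := (abs_le.1 b0a).1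
  have q6 := (abs_le.1 b2a).1
  rw [hs]
  have q7 : 0 ≤ ε * g0 := mul_nonneg hε g0n
  have q8 : 0 ≤ ε * g1 := mul_nonneg hε g1n
  have q9 : 0 ≤ ε * g2 := mul_nonneg hε g2n
  have q10 : 0 ≤ τ * g0 := mul_nonneg hτ g0n
  have q11 : 0 ≤ τ * g1 := mul_nonneg hτ g1n
  have q12 : (12 * ε + 4 * τ) * (g0 + g1 + g2) = 12 * (ε * g0) + 12 * (ε * g1) + 12 * (ε * g2) +
      4 * (τ * g0) + 4 * (τ * g1) + 4 * (τ * g2) := by ring
  have q13 : 2 * τ * g2 = 2 * (τ * g2) := by ring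
  rw [q12]
  rw [q13] at key
  linarith

end Pool.Agent.H4.FCX
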